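import Pool.Agent.TH818.AP.LogZ

/-!
# Almost all tuples of primes: no relation of bounded degree and height between `π` and the logarithms, with a measure
-/

set_option autoImplicit false

namespace Pool.Agent.Results.MP_d171e3_nt.AlmostAllPrimes

open Pool.Agent.TH818.AP

/-- The `m + 1` numbers `π`, `log x_1`, …, `log x_m`. -/
noncomputable def logs {m : ℕ} (x : Fin m → ℕ) (i : Option (Fin m)) : ℝ :=
  match i with
  | none => Real.pi
  | some j => Real.log (x j)

/-- The `m`-tuples `x` of integers in `[N, 2N]` for which some nonzero polynomial in `m + 1` variables with integer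
coefficients of absolute value at most `N ^ A`, of degree at most `d` in each variable, takes at `π`, `log x_1`, …,
`log x_m` a value of absolute value at most `N ^ (-B)`. -/
def Exceptional (m d N : ℕ) (A B : ℝ) : Set (Fin m → ℕ) :=
  {x | (∀ j, N ≤ x j ∧ x j ≤ 2 * N) ∧
    ∃ P : MvPolynomial (Option (Fin m)) ℤ, P ≠ 0 ∧ (∀ i, P.degreeOf i ≤ d) ∧
      (∀ s, |((P.coeff s : ℤ) : ℝ)| ≤ (N : ℝ) ^ A) ∧ |MvPolynomial.aeval (logs x) P| ≤ (N : ℝ) ^ (-B)}

/-- the exponent vector -/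
noncomputable def sOfL {n d : ℕ} (e : IdxL n d) : Option (Fin n) →₀ ℕ :=
  Finsupp.equivFunOnFinite.symm fun x => match x with
    | none => (e.2 : ℕ)
    | some y => (e.1 y : ℕ)

theorem sOfL_inj {n d : ℕ} : Function.Injective (sOfL (n := n) (d := d)) := by
  intro e e' h
  refine Prod.ext ?_ ?_
  · funext j
    have := DFunLike.congr_fun h (some j)
    exact Fin.ext (by simpa [sOfL] using this)
  · have := DFunLike.congr_fun h none
    exact Fin.ext (by simpa [sOfL] using this)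

theorem aeval_eqL {n d : ℕ} (f : Option (Fin n) → ℝ) (P : MvPolynomial (Option (Fin n)) ℤ)
    (hP : ∀ x, P.degreeOf x ≤ d) : MvPolynomial.aeval f P =
      ∑ e : IdxL n d, ((P.coeff (sOfL e) : ℤ) : ℝ) * ((∏ j, f (some j) ^ (e.1 j : ℕ)) * f none ^ (e.2 : ℕ)) := by
  classical
  have h1 : ∀ e : IdxL n d, (∏ j, f (some j) ^ (e.1 j : ℕ)) * f none ^ (e.2 : ℕ) =
      ∏ x, f x ^ (sOfL e x) := by
    intro e
    rw [Fintype.prod_option, mul_comm]
    simp [sOfL]
  simp only [h1]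
  rw [MvPolynomial.aeval_def, MvPolynomial.eval₂_eq']
  rw [← Finset.sum_image (f := fun s : Option (Fin n) →₀ ℕ => ((P.coeff s : ℤ) : ℝ) * ∏ x, f x ^ (s x))
    (fun a _ b _ hab => sOfL_inj hab)]
  refine Finset.sum_subset_zero_on_sdiff ?_ ?_ ?_
  · intro s hs
    rw [Finset.mem_image]
    have hle : ∀ x, s x < d + 1 := fun x =>
      Nat.lt_succ_of_le ((MvPolynomial.monomial_le_degreeOf x hs).trans (hP x))
    refine ⟨(fun j => ⟨s (some j), hle _⟩, ⟨s none, hle _⟩), Finset.mem_univ _, ?_⟩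
    ext x
    cases x <;> simp [sOfL]
  · intro s hs
    rw [Finset.mem_sdiff, MvPolynomial.notMem_support_iff] at hs
    rw [hs.2]
    simp
  · intro s _
    simp

theorem coeff_neL {n d : ℕ} (P : MvPolynomial (Option (Fin n)) ℤ) (hP0 : P ≠ 0)
    (hP : ∀ x, P.degreeOf x ≤ d) : (fun e : IdxL n d => P.coeff (sOfL e)) ≠ 0 := by
  intro h
  apply hP0
  ext s
  rw [MvPolynomial.coeff_zero]
  by_contra hs
  have hs' : s ∈ P.support := MvPolynomial.mem_support_iff.2 hs
  have hle : ∀ x, s x < d + 1 := fun x =>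
    Nat.lt_succ_of_le ((MvPolynomial.monomial_le_degreeOf x hs').trans (hP x))
  have := congrFun h (fun j => ⟨s (some j), hle _⟩, ⟨s none, hle _⟩)
  apply hs
  have he : sOfL ((fun j => ⟨s (some j), hle _⟩, ⟨s none, hle _⟩) : IdxL n d) = s := by
    ext x
    cases x <;> simp [sOfL]
  simp only [he, Pi.zero_apply] at this
  exact this

/-- Let `m ≥ 1`, `d`, `A ≥ 0` be given and let `β > 1 - 1 / ((d + 1)^(m + 1) + 1)`. There are `B` and `C` such that for all
`N ≥ 1` the number of exceptional `m`-tuples of integers in `[N, 2N]` is at most `C N^(m - 1 + β)`. -/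
theorem result (m d : ℕ) (hm : 1 ≤ m) (A β : ℝ) (hA : 0 ≤ A)
    (hβ : 1 - 1 / (((d : ℝ) + 1) ^ (m + 1) + 1) < β) :
    ∃ B C : ℝ, ∀ N : ℕ, 1 ≤ N → (Exceptional m d N A B).Finite ∧
      ((Exceptional m d N A B).ncard : ℝ) ≤ C * (N : ℝ) ^ ((m : ℝ) - 1 + β) := by
  classical
  have hM0 : (0 : ℝ) < ((d : ℝ) + 1) ^ (m + 1) := by positivity
  have hβ' : (((d + 1) ^ (m + 1) : ℕ) : ℝ) / ((((d + 1) ^ (m + 1) : ℕ) : ℝ) + 1) < β := by
    refine lt_of_le_of_lt (le_of_eq ?_) hβ
    push_cast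
    field_simp
    ring
  have hβ0 : 0 < β := lt_of_le_of_lt (by positivity) hβ'
  obtain ⟨B, C, T0, hC, hT0, h⟩ := multiL d m A β hA hβ'
  have hsub : ∀ N : ℕ, Exceptional m d N A B ⊆ ExcL m d N A B := by
    rintro N x ⟨hx, P, hP0, hPd, hPc, hPs⟩
    refine ⟨hx, fun e => P.coeff (sOfL e), coeff_neL P hP0 hPd, fun e => hPc _, ?_⟩
    rw [aeval_eqL (logs x) P hPd] at hPs
    exact hPs
  refine ⟨B, C + (T0 + 1) ^ m, fun N hN => ?_⟩
  have hfin := ExcL_fin m d N A B
  refine ⟨hfin.subset (hsub N), ?_⟩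
  have hN1 : (1 : ℝ) ≤ N := by exact_mod_cast hN
  have hm1 : (1 : ℝ) ≤ m := by exact_mod_cast hm
  have hone : 1 ≤ (N : ℝ) ^ ((m : ℝ) - 1 + β) := Real.one_le_rpow hN1 (by linarith)
  have hle : ((Exceptional m d N A B).ncard : ℝ) ≤ ((ExcL m d N A B).ncard : ℝ) := by
    exact_mod_cast Set.ncard_le_ncard (hsub N) hfin
  have hT0' : (0 : ℝ) ≤ (T0 + 1) ^ m := by positivity
  rcases le_or_gt T0 (N : ℝ) with hT | hT
  · have := h N hT
    nlinarith
  · have h2 := Set.ncard_le_ncard (ExcL_sub m d N A B) (Finset.finite_toSet _)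
    rw [Set.ncard_coe_finset, Fintype.card_piFinset, Finset.prod_const, Finset.card_univ, Fintype.card_fin,
      Nat.card_Icc] at h2
    have h3 : 2 * N + 1 - N = N + 1 := by omega
    rw [h3] at h2
    have h4 : ((ExcL m d N A B).ncard : ℝ) ≤ ((N : ℝ) + 1) ^ m := by exact_mod_cast h2
    have h5 : ((N : ℝ) + 1) ^ m ≤ (T0 + 1) ^ m := pow_le_pow_left₀ (by positivity) (by linarith) m
    nlinarith

end Pool.Agent.Results.MP_d171e3_nt.AlmostAllPrimes
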