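import Pool.Agent.TH519.HS.Log2

/-!
# Relations of bounded degree between independent logarithms occur in codimension `2 N - C(m, D)`

Let `W` be a space of dimension `N` over the field `ℚ̄` of the algebraic numbers which consists of
linear forms in `1` and logarithms of algebraic numbers, with algebraic coefficients, for example the
span of `1, log p_1, ..., log p_{N-1}` for prime numbers `p_i`. The `m`-tuples `y` of elements of `W`
for which `1, y_1, ..., y_m` are linearly dependent over `ℚ̄` form a set of codimension about `N` in
`W ^ m`. We prove that the tuples `y` for which `1, y_1, ..., y_m` are linearly independent but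
`y_1, ..., y_m` satisfy a nontrivial polynomial relation over `ℚ̄` of degree at most `D` lie in an
algebraic subset of dimension at most

`(m - 2) N + m (m - 1) + binom(D + m, m) - 1`,

that is of codimension at least `2 N - m (m - 1) - binom(D + m, m) + 1`. For pairs the dimension is
at most `(D ^ 2 + 3 D + 4) / 2` for every `N`. Here a set lies in an algebraic subset of dimension at
most `d` if and only if any `d + 1` linear forms satisfy a nontrivial polynomial relation on it.

Consequently, for logarithms `l_1, ..., l_N` of algebraic numbers which are linearly independent over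
`ℚ`, for example of `N` prime numbers, among the `(2 H + 1) ^ (m N)` integer matrices `A` with entries
at most `H` there are at most `κ H ^ ((m - 2) N + m (m - 1) + binom(D + m, m) - 1)` for which the
numbers `y_i = ∑ A_ij l_j` (logarithms of the numbers `∏ p_j ^ A_ij` if `l_j = log p_j`) are linearly
independent over `ℚ` and satisfy a nontrivial polynomial relation of degree at most `D`.

The proof: if the theorem fails then there are a tuple `y` over an ultrapower of `ℚ̄` with a relation
`f (y) = 0` of minimal degree and `d + 1` linear forms in the coordinates of `y` which are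
algebraically independent over `ℚ̄`. The derivations with respect to these linear forms extend to
derivations of the ultrapower of `ℂ` which vanish on `ℂ` (`FE.Ops`). Those combinations of them which
vanish on the coefficients of `f`, divided by one of them, map `y` to tangent vectors
`dy` in the span of `W` with `∑ (∂f/∂Y_i)(y) dy_i = 0` (`HS.Mas`, `HS.Sys`). By the hyperplane case of
the linear subgroup theorem of Waldschmidt and Roy (`W254.HP`) this allows for at most
`m' (m' - 1) + (m - m') N` independent tangent vectors, where `m'` is the dimension of the span of the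
numbers `(∂f/∂Y_i)(y)` over `ℚ̄` (`HS.Lin`). Finally `m' ≥ 2`: otherwise `f` is a polynomial in one
linear form `u` as its degree is minimal, and `u (y)` is algebraic (`HS.Red2`). The second part
follows by a linear Noether normalisation with bounded fibres (`HS.Cnt`).
-/

set_option autoImplicit false

namespace Pool.Agent.Results.MP_d171e3_nt.DependenceInCodimension

/-- The space of all linear combinations, with algebraic coefficients, of `1` and of logarithms of
algebraic numbers. -/
noncomputable def LogForms : Submodule (algebraicClosure ℚ ℂ) ℂ :=
  Submodule.span (algebraicClosure ℚ ℂ) ({1} ∪ {z : ℂ | IsAlgebraic ℚ (Complex.exp z)})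

/-- The numbers `y i` satisfy a nontrivial polynomial relation of total degree at most `D` with
algebraic coefficients. -/
def HasRelation (D : ℕ) {m : ℕ} (y : Fin m → ℂ) : Prop :=
  ∃ f : MvPolynomial (Fin m) (algebraicClosure ℚ ℂ), f ≠ 0 ∧ f.totalDegree ≤ D ∧
    MvPolynomial.aeval y f = 0

/-- **Main result.** -/
theorem result (m D : ℕ) :
    (∀ (W : Submodule (algebraicClosure ℚ ℂ) ℂ) [FiniteDimensional (algebraicClosure ℚ ℂ) W],
      W ≤ LogForms →
      ∀ φ : Fin (m * (m - 1) + (m - 2) * Module.finrank (algebraicClosure ℚ ℂ) W +
          (D + m).choose m) →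
        ((Fin m → W) →ₗ[algebraicClosure ℚ ℂ] algebraicClosure ℚ ℂ),
      ∃ P : MvPolynomial (Fin (m * (m - 1) + (m - 2) * Module.finrank (algebraicClosure ℚ ℂ) W +
          (D + m).choose m)) (algebraicClosure ℚ ℂ), P ≠ 0 ∧
        ∀ y : Fin m → W,
          LinearIndependent (algebraicClosure ℚ ℂ)
            (Fin.cons 1 (fun i => (y i : ℂ)) : Fin (m + 1) → ℂ) →
          HasRelation D (fun i => (y i : ℂ)) →
          MvPolynomial.eval (fun k => φ k y) P = 0) ∧
    ∀ (N : ℕ) (l : Fin N → ℂ), (∀ j, IsAlgebraic ℚ (Complex.exp (l j))) →
      LinearIndependent ℚ l →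
      ∃ κ : ℕ, ∀ H : ℕ, 1 ≤ H →
        Set.ncard {A : Fin m → Fin N → ℤ | (∀ i j, |A i j| ≤ H) ∧
          LinearIndependent ℚ (fun i => ∑ j, (A i j : ℂ) * l j) ∧
          HasRelation D (fun i => ∑ j, (A i j : ℂ) * l j)} ≤
        κ * H ^ (m * (m - 1) + (m - 2) * N + (D + m).choose m - 1) :=
  ⟨fun W _ hW φ => Pool.Agent.TH519.HS.pure_dim W hW φ,
    fun _ l halg hli => Pool.Agent.TH519.HS.log_count l halg hli m D⟩

end Pool.Agent.Results.MP_d171e3_nt.DependenceInCodimension
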