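import Mathlib
import Pool.Agent.TH812.SF.Inf
import Pool.Agent.H297R2.Density

/-!
# Every infinite set of primes contains an infinite set with independent products of logarithms

Let `𝓛` be the space of all linear combinations, with algebraic coefficients, of `1` and of arbitrary
logarithms of algebraic numbers, and let `W_0, W_1, ...` be finite dimensional spaces of complex
numbers over the algebraic numbers.  Every infinite set of primes contains an infinite set
`{q_0 < q_1 < ...}` with the following properties.

(a) The products of two or more distinct numbers `log q_j` are linearly independent over the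
algebraic numbers modulo `𝓛 + W_0`.

(b) For every `D`, if a polynomial `P` in `D` variables, with coefficients in `W_D`, whose mixed
monomials are squarefree and whose pure monomials have degree at most `D`, takes a value in
`𝓛 + W_D` at `D` distinct numbers `log q_j`, `j ≥ D`, then `P` has no mixed monomials.

The proof combines the hyperplane case of the linear subgroup theorem of Waldschmidt and Roy
(proved in the starting files `Pool.Agent.W254.HP`), Baker's theorem (`Pool.Agent.H297R2`), the
bounds for the number of exceptional tuples in `Pool.Agent.TH812.SF`, and a selection along an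
ultrafilter (a form of the theorem of Ramsey).
-/

set_option autoImplicit false

namespace Pool.Agent.Results.MP_d171e3_nt.InfiniteSubsets

/-- The space of all linear combinations with algebraic coefficients of `1` and of logarithms of
algebraic numbers. -/
noncomputable def LinForms : Submodule (algebraicClosure ℚ ℂ) ℂ :=
  Submodule.span (algebraicClosure ℚ ℂ) ({1} ∪ {z : ℂ | IsAlgebraic ℚ (Complex.exp z)})

/-- There is a polynomial `P` with coefficients in `U`, all of whose monomials are squarefree or
pure powers of a variable of degree at most `D`, in which at least one monomial with two or more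
variables occurs, and which takes at `y` a value in `V`. -/
def HasMixedRelation (D : ℕ) {k : ℕ} (U V : Submodule (algebraicClosure ℚ ℂ) ℂ) (y : Fin k → ℂ) :
    Prop :=
  ∃ P : MvPolynomial (Fin k) ℂ, (∀ m, P.coeff m ∈ U) ∧
    (∀ m ∈ P.support, (∀ i, m i ≤ 1) ∨ ∃ i b, b ≤ D ∧ m = Finsupp.single i b) ∧
    MvPolynomial.eval y P ∈ V ∧ ∃ m ∈ P.support, 2 ≤ m.support.card

/-- **Main result.** -/
theorem result (W : ℕ → Submodule (algebraicClosure ℚ ℂ) ℂ)
    (hW : ∀ D, FiniteDimensional (algebraicClosure ℚ ℂ) (W D)) (S : Set ℕ)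
    (hS : ∀ p ∈ S, p.Prime) (hinf : S.Infinite) :
    ∃ q : ℕ → ℕ, StrictMono q ∧ (∀ j, q j ∈ S) ∧
      (∀ (k : ℕ), ¬ HasMixedRelation 1 (1 : Submodule (algebraicClosure ℚ ℂ) ℂ) (LinForms ⊔ W 0)
        fun i : Fin k => (Real.log (q i) : ℂ)) ∧
      ∀ (D : ℕ) (t : Fin D → ℕ), Function.Injective t → (∀ i, D ≤ t i) →
        ¬ HasMixedRelation D (W D) (LinForms ⊔ W D)
          fun i => (Real.log (q (t i)) : ℂ) := by
  classical
  let p : ℕ → ℕ := Nat.nth (· ∈ S)
  have hpS : ∀ i, p i ∈ S := fun i => Nat.nth_mem_of_infinite hinf i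
  have hp : StrictMono p := Nat.nth_strictMono hinf
  have hl : Pool.Agent.TH812.SF.LogSeq (fun i => (Real.log (p i) : ℂ)) := by
    constructor
    · intro i
      have h1 : Complex.exp (Real.log (p i) : ℂ) = ((p i : ℕ) : ℂ) := by
        rw [← Complex.ofReal_exp, Real.exp_log (by exact_mod_cast (hS _ (hpS i)).pos)]
        simp
      rw [h1]
      exact isAlgebraic_natCast _
    · rw [linearIndependent_iff_finset_linearIndependent]
      intro s
      exact Pool.Agent.H297R2.linearIndependent_log_prime (fun i : s => p i)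
        (fun i => hS _ (hpS i)) (fun i j hij => Subtype.ext (hp.injective hij))
  obtain ⟨q, hq, h1, h2⟩ := Pool.Agent.TH812.SF.exists_infinite hl
    (fun D => W D ⊔ (1 : Submodule (algebraicClosure ℚ ℂ) ℂ)) (fun D => by
      have := hW D
      have h3 : FiniteDimensional (algebraicClosure ℚ ℂ)
          (1 : Submodule (algebraicClosure ℚ ℂ) ℂ) := by
        rw [Submodule.one_eq_span]
        infer_instance
      exact Submodule.finiteDimensional_sup _ _) (fun D =>
        Submodule.mem_sup_right (Submodule.one_le.mp le_rfl))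
  refine ⟨fun j => p (q j), fun a b hab => hp (hq hab), fun j => hpS _, ?_, ?_⟩
  · rintro k ⟨P, h3, h4, h5, h6⟩
    obtain ⟨i, u, f, hu, hf, hsum, A, hiA, hA2, hAu⟩ :=
      Pool.Agent.TH812.SF.relAt_of_poly (E := 0) (1 : Submodule (algebraicClosure ℚ ℂ) ℂ)
      (Pool.Agent.H301R2.SSE.Lt ⊔ (W 0 ⊔ (1 : Submodule (algebraicClosure ℚ ℂ) ℂ)))
      (fun i => (Real.log (p i) : ℂ)) (fun i : Fin k => q i) P h3 h4
      ((sup_le_sup_left le_sup_left Pool.Agent.H301R2.SSE.Lt) h5) h6
    have h7 := ((h1 k).1 u hu (by simpa using hsum)).1 A hA2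
    exact hAu h7
  · rintro D t ht htD ⟨P, h3, h4, h5, h6⟩
    obtain ⟨i, hi⟩ := Pool.Agent.TH812.SF.relAt_of_poly (E := D)
      (W D ⊔ (1 : Submodule (algebraicClosure ℚ ℂ) ℂ))
      (Pool.Agent.H301R2.SSE.Lt ⊔ (W D ⊔ (1 : Submodule (algebraicClosure ℚ ℂ) ℂ)))
      (fun i => (Real.log (p i) : ℂ)) (fun i => q (t i)) P
      (fun m => Submodule.mem_sup_left (h3 m))
      (fun m hm => (h4 m hm).imp id (fun ⟨i, b, hb, h⟩ => ⟨i, b, hb.trans (Nat.le_succ D), h⟩))
      ((sup_le_sup_left le_sup_left Pool.Agent.H301R2.SSE.Lt) h5) h6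
    exact h2 D t ht htD i hi

end Pool.Agent.Results.MP_d171e3_nt.InfiniteSubsets
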