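import Pool.Agent.TH379.HF.Sparse

/-!
# Logarithms which are polynomials in few numbers, and the number of relations of given degree

Let `𝓛` be the space of all linear combinations, with algebraic coefficients, of `1` and of
logarithms of algebraic numbers. For every finite dimensional space `U` of complex numbers (over
the field of algebraic numbers)

`dim U + ⌊(dim (U ∩ 𝓛)) ^ 2 / 4⌋ ≤ dim (U U)`.

Hence if `n` logarithms of algebraic numbers (for example of primes) which are linearly
independent over `ℚ` are polynomials of degree `≤ m` with algebraic coefficients in one complex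
number, then `m ≥ ⌊(n + 1) ^ 2 / 4⌋`, and if they are polynomials of degree `≤ m` in `t` numbers then
`n + 1 + ⌊(n + 1) ^ 2 / 4⌋ ≤ binom (t + 2 m) t`. Moreover the space of polynomial relations of degree
`≤ 2` between them has dimension at most `⌊n ^ 2 / 4⌋`, and there are similar bounds in all degrees.

Proof: for an `s`-dimensional space `Y` and a space `V` of linear forms in logarithms,
`dim (Y V) ≥ s dim V - s (s - 1)` (hyperplane case of the linear subgroup theorem, starting library
`Pool.Agent.W254.HP`). Choosing points of the algebra generated by `U` and `V` which kill an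
`s`-dimensional subspace `Y` of `U`, `s = ⌊dim V / 2⌋` (starting library `Pool.Agent.W256`), one gets
`dim (U V) ≥ dim U + ⌊(dim V) ^ 2 / 4⌋`; now take `V = U ∩ 𝓛`.
-/

set_option autoImplicit false

namespace Pool.Agent.Results.MP_d171e3_nt.PolynomialsInFewNumbers

open Module Pool.Agent.TH379.HF

/-- The space of all linear combinations, with algebraic coefficients, of `1` and of logarithms of
algebraic numbers. -/
noncomputable def LinForms : Submodule (algebraicClosure ℚ ℂ) ℂ :=
  Submodule.span (algebraicClosure ℚ ℂ) ({1} ∪ {z : ℂ | IsAlgebraic ℚ (Complex.exp z)})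

/-- The space of polynomials with algebraic coefficients, of total degree at most `m`, which vanish
at the point `l`. -/
noncomputable def Relations {n : ℕ} (l : Fin n → ℂ) (m : ℕ) :
    Submodule (algebraicClosure ℚ ℂ) (MvPolynomial (Fin n) (algebraicClosure ℚ ℂ)) :=
  MvPolynomial.restrictTotalDegree (Fin n) (algebraicClosure ℚ ℂ) m ⊓
    LinearMap.ker (MvPolynomial.aeval l).toLinearMap

theorem primes {S : Finset ℕ} (hS : ∀ p ∈ S, p.Prime) :
    (∀ j : Fin S.card, IsAlgebraic ℚ (Complex.exp ((Real.log (S.equivFin.symm j : ℕ) : ℝ) : ℂ))) ∧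
      LinearIndependent ℚ
        (fun j : Fin S.card => ((Real.log (S.equivFin.symm j : ℕ) : ℝ) : ℂ)) := by
  constructor
  · intro j
    have hp := (hS _ (S.equivFin.symm j).2).pos
    rw [← Complex.ofReal_exp, Real.exp_log (by exact_mod_cast hp)]
    exact_mod_cast isAlgebraic_algebraMap (R := ℚ) (A := ℂ) ((S.equivFin.symm j : ℕ) : ℚ)
  · exact Pool.Agent.H297R2.linearIndependent_log_prime
      (fun j : Fin S.card => (S.equivFin.symm j : ℕ)) (fun j => hS _ (S.equivFin.symm j).2)
      (fun a b hab => S.equivFin.symm.injective (Subtype.ext hab))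

/-- **Main result.** -/
theorem result :
    -- logarithms in a space of small doubling
    (∀ U : Submodule (algebraicClosure ℚ ℂ) ℂ, FiniteDimensional (algebraicClosure ℚ ℂ) U →
      finrank (algebraicClosure ℚ ℂ) U +
          finrank (algebraicClosure ℚ ℂ) (U ⊓ LinForms : Submodule (algebraicClosure ℚ ℂ) ℂ) ^ 2 / 4
        ≤ finrank (algebraicClosure ℚ ℂ) (U * U : Submodule (algebraicClosure ℚ ℂ) ℂ)) ∧
    -- logarithms of primes which are polynomials in one number
    (∀ (m : ℕ) (θ : ℂ) (S : Finset ℕ), (∀ p ∈ S, p.Prime ∧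
        ∃ P : Polynomial (algebraicClosure ℚ ℂ), P.natDegree ≤ m ∧
          Polynomial.aeval θ P = (Real.log p : ℂ)) → (S.card + 1) ^ 2 / 4 ≤ m) ∧
    -- logarithms of primes which are polynomials in `t` numbers
    (∀ (t m : ℕ) (θ : Fin t → ℂ) (S : Finset ℕ), (∀ p ∈ S, p.Prime ∧
        ∃ P : MvPolynomial (Fin t) (algebraicClosure ℚ ℂ), P.totalDegree ≤ m ∧
          MvPolynomial.aeval θ P = (Real.log p : ℂ)) →
        S.card + 1 + (S.card + 1) ^ 2 / 4 ≤ (t + 2 * m).choose t) ∧
    -- `n` linearly independent logarithms of algebraic numbers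
    (∀ (n : ℕ) (l : Fin n → ℂ), (∀ j, IsAlgebraic ℚ (Complex.exp (l j))) →
      LinearIndependent ℚ l →
      (∀ (m : ℕ) (θ : ℂ), (∀ j, ∃ P : Polynomial (algebraicClosure ℚ ℂ), P.natDegree ≤ m ∧
          Polynomial.aeval θ P = l j) → (n + 1) ^ 2 / 4 ≤ m) ∧
      (∀ (t m : ℕ) (θ : Fin t → ℂ), (∀ j, ∃ P : MvPolynomial (Fin t) (algebraicClosure ℚ ℂ),
          P.totalDegree ≤ m ∧ MvPolynomial.aeval θ P = l j) →
        n + 1 + (n + 1) ^ 2 / 4 ≤ (t + 2 * m).choose t) ∧
      finrank (algebraicClosure ℚ ℂ) (Relations l 2) ≤ n ^ 2 / 4 ∧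
      (∀ m : ℕ, finrank (algebraicClosure ℚ ℂ) (Relations l (m + 1)) +
        (n + 1 + m * ((n + 1) ^ 2 / 4)) ≤ (n + (m + 1)).choose (m + 1)) ∧
      (∀ U : Submodule (algebraicClosure ℚ ℂ) ℂ, FiniteDimensional (algebraicClosure ℚ ℂ) U →
        n ≤ 2 * finrank (algebraicClosure ℚ ℂ) U → ∀ m : ℕ,
          finrank (algebraicClosure ℚ ℂ) U + m * ((n + 1) ^ 2 / 4) ≤
            finrank (algebraicClosure ℚ ℂ)
              (U * Submodule.span (algebraicClosure ℚ ℂ) ({1} ∪ Set.range l) ^ m :
                Submodule (algebraicClosure ℚ ℂ) ℂ))) := by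
  refine ⟨fun U hU => sparse U, ?_, ?_, ?_⟩
  · intro m θ S hS
    obtain ⟨h1, h2⟩ := primes (S := S) (fun p hp => (hS p hp).1)
    exact one_number θ m _ h1 h2 (fun j => (hS _ (S.equivFin.symm j).2).2)
  · intro t m θ S hS
    obtain ⟨h1, h2⟩ := primes (S := S) (fun p hp => (hS p hp).1)
    exact (poly_values θ m _ h1 h2 (fun j => (hS _ (S.equivFin.symm j).2).2)).2
  · intro n l halg hli
    refine ⟨fun m θ h => one_number θ m l halg hli h,
      fun t m θ h => (poly_values θ m l halg hli h).2, quadrics l halg hli,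
      fun m => relations l halg hli m, ?_⟩
    intro U hU hn m
    have h1 := finrank_VV l halg hli
    have hne : VV l ≠ ⊥ := by
      intro h0
      rw [h0, finrank_bot] at h1
      omega
    have h2 := expand_pow U (VV l) (VV_le l halg) hne (by rw [h1]; exact Nat.succ_le_succ hn) m
    rw [h1] at h2
    exact h2

end Pool.Agent.Results.MP_d171e3_nt.PolynomialsInFewNumbers
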